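import Pool.Agent.Lib.H2I.Ex3

set_option autoImplicit false

namespace Pool.Agent.Results.MP_a81a70_co.EveryDimension

open Pool.Agent.Lib.H2I

/-- In every dimension `d ≥ 4` the capped cube (the points of `[-1, 1]^d` whose first four
coordinates have a sum in `[-1, 1]`) is a centrally symmetric simple `d`-polytope whose boundary
complex is not a refinement of the boundary complex of the cube.  More precisely, no homeomorphism
from its boundary onto the boundary of the cube pulls every facet of the cube back to a union of
proper faces. -/
theorem result (d : ℕ) (hd : 4 ≤ d) :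
    IsPolytope (capped d) ∧ CentrallySymmetric (capped d) ∧ IsSimple (capped d) ∧
      ¬ BoundaryRefines (capped d) (cube d) ∧
      ∀ φ : frontier (capped d) ≃ₜ frontier (cube d),
        ∃ G, IsFacet (cube d) G ∧ ¬ PullsBackToFaces φ G := by
  obtain ⟨h1, h2, h3, h4, h5⟩ := main hd
  exact ⟨h1, h2, h3, h5, h4⟩

end Pool.Agent.Results.MP_a81a70_co.EveryDimension
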